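import Pool.Agent.Helper10.RC.Basic

/-!
# MP_b55b7c_an: the cut-down step
-/

open scoped ENNReal NNReal InnerProductSpace ComplexOrder CStarAlgebra
open Filter Topology

attribute [-instance] CStarMatrix.instAlgebra CStarMatrix.instModule CStarMatrix.instSMul
  CStarMatrix.instMulAction CStarMatrix.instDistribMulAction

set_option linter.unusedSectionVars false

noncomputable section
namespace RC
universe u

namespace CutDown

variable {A : Type u} [CStarAlgebra A] [PartialOrder A] [StarOrderedRing A]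
variable {ι κ μ ν : Type} [Fintype ι] [DecidableEq ι] [Fintype κ] [DecidableEq κ]
  [Fintype μ] [DecidableEq μ] [Fintype ν] [DecidableEq ν]

/-! ## Direct sums -/

theorem dsum_mul (a a' : CStarMatrix ι ι A) (b b' : CStarMatrix κ κ A) :
    dsum a b * dsum a' b' = dsum (a * a') (b * b') := by
  show Matrix.fromBlocks a 0 0 b * Matrix.fromBlocks a' 0 0 b' =
    Matrix.fromBlocks (a * a') 0 0 (b * b')
  rw [Matrix.fromBlocks_multiply]
  simp only [Matrix.mul_zero, Matrix.zero_mul, add_zero, zero_add]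
  rfl

theorem dsum_add (a a' : CStarMatrix ι ι A) (b b' : CStarMatrix κ κ A) :
    dsum (a + a') (b + b') = dsum a b + dsum a' b' := by
  show Matrix.fromBlocks (a + a') 0 0 (b + b') =
    Matrix.fromBlocks a 0 0 b + Matrix.fromBlocks a' 0 0 b'
  rw [Matrix.fromBlocks_add]
  simp only [add_zero]
  rfl

theorem dsum_zero : dsum (0 : CStarMatrix ι ι A) (0 : CStarMatrix κ κ A) = 0 :=
  Matrix.fromBlocks_zero

theorem dsum_one : dsum (1 : CStarMatrix ι ι A) (1 : CStarMatrix κ κ A) = 1 :=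
  Matrix.fromBlocks_one

theorem dsum_conj (a : CStarMatrix ι ι A) (b : CStarMatrix κ κ A) :
    (dsum a b).conjTranspose = dsum a.conjTranspose b.conjTranspose := by
  show Matrix.conjTranspose (Matrix.fromBlocks a 0 0 b) = Matrix.fromBlocks (Matrix.conjTranspose a) 0 0 (Matrix.conjTranspose b)
  rw [Matrix.fromBlocks_conjTranspose]
  simp

theorem dsum_csmul (c : ℂ) (a : CStarMatrix ι ι A) (b : CStarMatrix κ κ A) :
    dsum (c • a) (c • b) = c • dsum a b := by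
  ext i j
  rcases i with i | i <;> rcases j with j | j
  · rfl
  · show (0 : A) = c • 0
    simp
  · show (0 : A) = c • 0
    simp
  · rfl

theorem dsum_rsmul (c : ℝ) (a : CStarMatrix ι ι A) (b : CStarMatrix κ κ A) :
    dsum (c • a) (c • b) = c • dsum a b := by
  ext i j
  rcases i with i | i <;> rcases j with j | j
  · rfl
  · show (0 : A) = c • 0
    simp
  · show (0 : A) = c • 0
    simp
  · rfl

theorem dsum_nonneg {a : CStarMatrix ι ι A} {b : CStarMatrix κ κ A} (ha : 0 ≤ a) (hb : 0 ≤ b) :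
    0 ≤ dsum a b := by
  obtain ⟨s, hs⟩ := CStarAlgebra.nonneg_iff_eq_mul_star_self.mp ha
  obtain ⟨t, ht⟩ := CStarAlgebra.nonneg_iff_eq_mul_star_self.mp hb
  have : dsum a b = dsum s t * (dsum s t).conjTranspose := by
    rw [dsum_conj, dsum_mul, hs, ht, cm_star_eq, cm_star_eq]
  rw [this]
  exact cm_mul_conj_nonneg _

theorem dsum_mono {a a' : CStarMatrix ι ι A} {b b' : CStarMatrix κ κ A} (ha : a ≤ a')
    (hb : b ≤ b') : dsum a b ≤ dsum a' b' := by
  have h := dsum_nonneg (sub_nonneg.2 ha) (sub_nonneg.2 hb)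
  have h2 : dsum a' b' = dsum a b + dsum (a' - a) (b' - b) := by
    rw [← dsum_add, add_sub_cancel, add_sub_cancel]
  rw [h2]
  exact le_add_of_nonneg_right h

/-- The product of two algebras. -/
def PP (X Y : Type u) : Type u := X × Y

instance (X Y : Type u) [CStarAlgebra X] [CStarAlgebra Y] : CStarAlgebra (PP X Y) :=
  inferInstanceAs (CStarAlgebra (X × Y))

/-- first projection -/
def pfst (X Y : Type u) [CStarAlgebra X] [CStarAlgebra Y] : PP X Y →⋆ₐ[ℂ] X where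
  toFun p := p.1
  map_one' := rfl
  map_mul' _ _ := rfl
  map_zero' := rfl
  map_add' _ _ := rfl
  commutes' _ := rfl
  map_star' _ := rfl

/-- second projection -/
def psnd (X Y : Type u) [CStarAlgebra X] [CStarAlgebra Y] : PP X Y →⋆ₐ[ℂ] Y where
  toFun p := p.2
  map_one' := rfl
  map_mul' _ _ := rfl
  map_zero' := rfl
  map_add' _ _ := rfl
  commutes' _ := rfl
  map_star' _ := rfl

theorem cfc_hom {X Y : Type u} [CStarAlgebra X] [CStarAlgebra Y]
    (φ : X →⋆ₐ[ℂ] Y) (f : ℝ → ℝ) (hf : Continuous f) (a : X) (ha : IsSelfAdjoint a) :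
    φ (cfc f a) = cfc f (φ a) :=
  StarAlgHomClass.map_cfc (S := ℂ) φ f a hf.continuousOn (map_continuous _) ha (ha.map φ)

theorem cfc_prodhom {X Y Z : Type u} [CStarAlgebra X] [CStarAlgebra Y] [CStarAlgebra Z]
    (φ : PP X Y →⋆ₐ[ℂ] Z) (f : ℝ → ℝ) (hf : Continuous f) (a : X) (b : Y)
    (ha : IsSelfAdjoint a) (hb : IsSelfAdjoint b) :
    cfc f (φ (a, b)) = φ (cfc f a, cfc f b) := by
  have hab : IsSelfAdjoint ((a, b) : PP X Y) := Prod.ext ha hb
  rw [← cfc_hom φ f hf (a, b) hab]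
  congr 1
  refine Prod.ext ?_ ?_
  · exact cfc_hom (pfst X Y) f hf (a, b) hab
  · exact cfc_hom (psnd X Y) f hf (a, b) hab

/-- `dsum` as a homomorphism. -/
def dsumHom (A : Type u) [CStarAlgebra A] [PartialOrder A] [StarOrderedRing A]
    (ι κ : Type) [Fintype ι] [DecidableEq ι] [Fintype κ] [DecidableEq κ] :
    PP (CStarMatrix ι ι A) (CStarMatrix κ κ A) →⋆ₐ[ℂ] CStarMatrix (ι ⊕ κ) (ι ⊕ κ) A where
  toFun p := dsum p.1 p.2
  map_one' := dsum_one
  map_mul' p q := (dsum_mul _ _ _ _).symm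
  map_zero' := dsum_zero
  map_add' p q := dsum_add _ _ _ _
  commutes' r := by
    rw [Algebra.algebraMap_eq_smul_one, Algebra.algebraMap_eq_smul_one]
    show dsum (r • 1) (r • 1) = _
    rw [dsum_csmul, dsum_one]
  map_star' p := (dsum_conj _ _).symm

theorem cfc_dsum (f : ℝ → ℝ) (hf : Continuous f) (a : CStarMatrix ι ι A) (b : CStarMatrix κ κ A)
    (ha : IsSelfAdjoint a) (hb : IsSelfAdjoint b) :
    cfc f (dsum a b) = dsum (cfc f a) (cfc f b) :=
  cfc_prodhom (dsumHom A ι κ) f hf a b ha hb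

theorem cut_dsum (a : CStarMatrix ι ι A) (b : CStarMatrix κ κ A)
    (ha : IsSelfAdjoint a) (hb : IsSelfAdjoint b) (ε : ℝ) :
    cut (dsum a b) ε = dsum (cut a ε) (cut b ε) :=
  cfc_dsum _ (by fun_prop) a b ha hb

/-! ## The functions -/

/-- `min (1, t / δ)`. -/
def phi (δ t : ℝ) : ℝ := min 1 (max t 0 / δ)

/-- the square root of `1 - phi` -/
def psi (δ t : ℝ) : ℝ := Real.sqrt (1 - phi δ t)

theorem phi_cont (δ : ℝ) : Continuous (phi δ) := by
  unfold phi
  fun_prop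

theorem psi_cont (δ : ℝ) : Continuous (psi δ) := by
  unfold psi
  exact Real.continuous_sqrt.comp (continuous_const.sub (phi_cont δ))

theorem phi_nonneg {δ : ℝ} (hδ : 0 < δ) (t : ℝ) : 0 ≤ phi δ t :=
  le_min zero_le_one (div_nonneg (le_max_right _ _) hδ.le)

theorem phi_le_one (δ t : ℝ) : phi δ t ≤ 1 := min_le_left _ _

theorem psi_sq (δ t : ℝ) : psi δ t * psi δ t = 1 - phi δ t :=
  Real.mul_self_sqrt (by linarith [phi_le_one δ t])

theorem phi_le {δ : ℝ} (hδ : 0 < δ) {t : ℝ} (ht : 0 ≤ t) : phi δ t ≤ δ⁻¹ * t := by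
  unfold phi
  rw [max_eq_left ht]
  refine (min_le_right _ _).trans ?_
  rw [div_eq_inv_mul]

theorem psi_mul {δ : ℝ} (hδ : 0 < δ) {t : ℝ} (ht : 0 ≤ t) :
    psi δ t * t * psi δ t ≤ δ / 4 := by
  have h1 : psi δ t * t * psi δ t = t * (1 - phi δ t) := by
    rw [← psi_sq]; ring
  rw [h1]
  unfold phi
  rw [max_eq_left ht]
  rcases le_total t δ with h | h
  · have h2 : t / δ ≤ 1 := (div_le_one hδ).2 h
    rw [min_eq_right h2]
    have h3 : t * (1 - t / δ) = (t * (δ - t)) / δ := by field_simp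
    rw [h3, div_le_div_iff₀ hδ (by norm_num)]
    nlinarith [sq_nonneg (2 * t - δ)]
  · have h2 : 1 ≤ t / δ := (one_le_div hδ).2 h
    rw [min_eq_left h2]
    simp only [sub_self, mul_zero]
    positivity

section alg
variable {D : Type u} [CStarAlgebra D] [PartialOrder D] [StarOrderedRing D]

theorem psi_sa (δ : ℝ) (c : D) : IsSelfAdjoint (cfc (psi δ) c) := cfc_predicate _ _

theorem psi_psi {δ : ℝ} {c : D} (hc : 0 ≤ c) :
    cfc (psi δ) c * cfc (psi δ) c = 1 - cfc (phi δ) c := by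
  have hsa : IsSelfAdjoint c := hc.isSelfAdjoint
  rw [← cfc_mul (psi δ) (psi δ) c (psi_cont δ).continuousOn (psi_cont δ).continuousOn]
  simp_rw [psi_sq]
  rw [cfc_sub (fun _ => (1 : ℝ)) (phi δ) c continuousOn_const (phi_cont δ).continuousOn,
    cfc_const_one ℝ c]

theorem psi_psi_le {δ : ℝ} (hδ : 0 < δ) {c : D} (hc : 0 ≤ c) :
    cfc (psi δ) c * cfc (psi δ) c ≤ 1 := by
  rw [psi_psi hc]
  have h : 0 ≤ cfc (phi δ) c := cfc_nonneg fun t _ => phi_nonneg hδ t
  exact sub_le_self _ h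

theorem psi_c_psi_le {δ : ℝ} (hδ : 0 < δ) {c : D} (hc : 0 ≤ c) :
    cfc (psi δ) c * c * cfc (psi δ) c ≤ (δ / 4) • (1 : D) := by
  have hsa : IsSelfAdjoint c := hc.isSelfAdjoint
  have h1 : cfc (psi δ) c * c * cfc (psi δ) c = cfc (fun t => psi δ t * t * psi δ t) c := by
    rw [cfc_mul (fun t => psi δ t * t) (psi δ) c
      ((psi_cont δ).mul continuous_id).continuousOn (psi_cont δ).continuousOn,
      cfc_mul (psi δ) (fun t => t) c (psi_cont δ).continuousOn continuous_id.continuousOn,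
      cfc_id' ℝ c]
  rw [h1, ← Algebra.algebraMap_eq_smul_one, ← cfc_const (δ / 4) c]
  refine cfc_mono (fun t ht => psi_mul hδ (spectrum_nonneg_of_nonneg hc ht)) ?_ ?_
  · exact (((psi_cont δ).mul continuous_id).mul (psi_cont δ)).continuousOn
  · exact continuousOn_const

theorem phi_le_smul {δ : ℝ} (hδ : 0 < δ) {c : D} (hc : 0 ≤ c) : cfc (phi δ) c ≤ δ⁻¹ • c := by
  have hsa : IsSelfAdjoint c := hc.isSelfAdjoint
  have h1 : δ⁻¹ • c = cfc (fun t => δ⁻¹ * t) c := by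
    rw [cfc_const_mul δ⁻¹ (fun t => t) c continuous_id.continuousOn, cfc_id' ℝ c]
  rw [h1]
  exact cfc_mono (fun t ht => phi_le hδ (spectrum_nonneg_of_nonneg hc ht))
    (phi_cont δ).continuousOn (continuous_const.mul continuous_id).continuousOn

end alg

/-! ## Cuntz comparison -/

theorem cu_conj (v : CStarMatrix ι κ A) (b : CStarMatrix κ κ A) :
    Cu (v * b * v.conjTranspose) b := by
  intro ε hε
  exact ⟨v, by rw [sub_self, norm_zero]; exact hε⟩

theorem cu_conj' (y : CStarMatrix κ ι A) (b : CStarMatrix κ κ A) :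
    Cu (y.conjTranspose * b * y) b := by
  have := cu_conj y.conjTranspose b
  rwa [cm_conj_conj] at this

theorem cu_of_le (hLe : CuLeAddP.{u}) {a b : CStarMatrix ι ι A} (ha : 0 ≤ a) (hb : 0 ≤ b)
    (hab : a ≤ b) : Cu a b := by
  have h := hLe A ι a b 0 le_rfl ha hb (by rw [zero_smul, add_zero]; exact hab)
  rwa [cut_zero ha] at h

theorem cu_smul {c : ℝ} (hc : 0 ≤ c) (b : CStarMatrix κ κ A) : Cu (c • b) b := by
  have h := cu_conj (Real.sqrt c • (1 : CStarMatrix κ κ A)) b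
  have h2 : Real.sqrt c • (1 : CStarMatrix κ κ A) * b *
      (Real.sqrt c • (1 : CStarMatrix κ κ A)).conjTranspose = c • b := by
    rw [cm_conj_rsmul, cm_conj_one, cm_rsmul_mul, cm_rsmul_mul, cm_mul_rsmul, cm_one_mul,
      cm_mul_one, smul_smul, Real.mul_self_sqrt hc]
  rwa [h2] at h

theorem cu_cut (hLe : CuLeAddP.{u}) {a : CStarMatrix ι ι A} (ha : 0 ≤ a) {ε : ℝ} (hε : 0 ≤ ε) :
    Cu (cut a ε) a :=
  cu_of_le hLe (cut_nonneg a ε) ha (cut_le ha hε)

theorem sqrt_mul_self' {D : Type u} [CStarAlgebra D] [PartialOrder D] [StarOrderedRing D]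
    {a : D} (ha : 0 ≤ a) : cfc Real.sqrt a * cfc Real.sqrt a = a := by
  have hsa : IsSelfAdjoint a := ha.isSelfAdjoint
  rw [← cfc_mul Real.sqrt Real.sqrt a Real.continuous_sqrt.continuousOn
    Real.continuous_sqrt.continuousOn]
  conv_rhs => rw [← cfc_id' ℝ a]
  exact cfc_congr fun t ht => Real.mul_self_sqrt (spectrum_nonneg_of_nonneg ha ht)

/-- the basic splitting -/
theorem split (hSwap : CuSwapP.{u}) (hAdd : CuAddP.{u}) (hLe : CuLeAddP.{u})
    (hD : CuDsumP.{u}) (hT : CuTransP.{u}) {a c₀ : CStarMatrix ι ι A} (ha : 0 ≤ a)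
    (hc : 0 ≤ c₀) {δ : ℝ} (hδ : 0 < δ) :
    Cu (cut a (4 * δ)) (dsum (cut (cfc (psi δ) c₀ * a * cfc (psi δ) c₀) (2 * δ))
      (cfc (phi δ) c₀)) := by
  set r : CStarMatrix ι ι A := cfc (psi δ) c₀ with hr
  set e : CStarMatrix ι ι A := cfc (phi δ) c₀ with he
  set q : CStarMatrix ι ι A := cfc Real.sqrt a with hq
  have hqq : q * q = a := sqrt_mul_self' ha
  have hqs : q.conjTranspose = q := by
    have : IsSelfAdjoint q := cfc_predicate _ _
    exact this.star_eq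
  have hrs : r.conjTranspose = r := by
    have : IsSelfAdjoint r := cfc_predicate _ _
    exact this.star_eq
  have hrr : r * r = 1 - e := psi_psi hc
  have he0 : 0 ≤ e := cfc_nonneg fun t _ => phi_nonneg hδ t
  set z : CStarMatrix ι ι A := q * r with hz
  have hz1 : z * z.conjTranspose = q * (r * r) * q := by
    rw [hz, cm_conj_mul, hqs, hrs]
    simp only [mul_assoc]
  have hz2 : z.conjTranspose * z = r * a * r := by
    rw [hz, cm_conj_mul, hqs, hrs, ← hqq]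
    simp only [mul_assoc]
  have hP : 0 ≤ z * z.conjTranspose := cm_mul_conj_nonneg z
  have hQ : 0 ≤ q * e * q.conjTranspose := cm_conj_nonneg q he0
  have hsum : z * z.conjTranspose + q * e * q.conjTranspose = a := by
    rw [hz1, hrr, hqs, mul_sub, sub_mul, mul_one, hqq, sub_add_cancel]
  have h1 := hAdd A ι (z * z.conjTranspose) (q * e * q.conjTranspose) (2 * δ) (2 * δ)
    (by positivity) (by positivity) hP hQ
  rw [hsum] at h1
  have h4 : 2 * δ + 2 * δ = 4 * δ := by ring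
  rw [h4] at h1
  have h2 := hSwap A ι ι z (2 * δ) (by positivity)
  rw [hz2] at h2
  have h3 : Cu (cut (q * e * q.conjTranspose) (2 * δ)) e :=
    hT A ι ι ι _ _ _ (cu_cut hLe hQ (by positivity)) (cu_conj q e)
  have h5 := hD A ι ι ι ι _ _ _ _ h2 h3
  exact hT A ι (ι ⊕ ι) (ι ⊕ ι) _ _ _ h1 h5

/-! ## Corners -/

/-- upper left corner -/
def blk0 (c : CStarMatrix (ι ⊕ κ) (ι ⊕ κ) A) : CStarMatrix ι ι A :=
  CStarMatrix.ofMatrix fun i j => c (Sum.inl i) (Sum.inl j)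

/-- lower right corner -/
def blk1 (c : CStarMatrix (ι ⊕ κ) (ι ⊕ κ) A) : CStarMatrix κ κ A :=
  CStarMatrix.ofMatrix fun i j => c (Sum.inr i) (Sum.inr j)

/-- first coordinates -/
def row0 (A : Type u) [CStarAlgebra A] (ι κ : Type) [DecidableEq ι] [DecidableEq κ] :
    CStarMatrix ι (ι ⊕ κ) A :=
  CStarMatrix.ofMatrix fun i j => if j = Sum.inl i then 1 else 0

/-- last coordinates -/
def row1 (A : Type u) [CStarAlgebra A] (ι κ : Type) [DecidableEq ι] [DecidableEq κ] :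
    CStarMatrix κ (ι ⊕ κ) A :=
  CStarMatrix.ofMatrix fun i j => if j = Sum.inr i then 1 else 0

theorem blk0_eq (c : CStarMatrix (ι ⊕ κ) (ι ⊕ κ) A) :
    row0 A ι κ * c * (row0 A ι κ).conjTranspose = blk0 c := by
  ext i j
  rw [CStarMatrix.mul_apply, Finset.sum_eq_single (Sum.inl j)]
  · rw [CStarMatrix.mul_apply, Finset.sum_eq_single (Sum.inl i)]
    · show (if (Sum.inl i : ι ⊕ κ) = Sum.inl i then (1 : A) else 0) * c (Sum.inl i) (Sum.inl j) *
        star (if (Sum.inl j : ι ⊕ κ) = Sum.inl j then (1 : A) else 0) = c (Sum.inl i) (Sum.inl j)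
      simp
    · intro b _ hb
      show (if b = Sum.inl i then (1 : A) else 0) * _ = 0
      rw [if_neg hb, zero_mul]
    · simp
  · intro b _ hb
    show _ * star (if b = Sum.inl j then (1 : A) else 0) = 0
    rw [if_neg hb, star_zero, mul_zero]
  · simp

theorem blk1_eq (c : CStarMatrix (ι ⊕ κ) (ι ⊕ κ) A) :
    row1 A ι κ * c * (row1 A ι κ).conjTranspose = blk1 c := by
  ext i j
  rw [CStarMatrix.mul_apply, Finset.sum_eq_single (Sum.inr j)]
  · rw [CStarMatrix.mul_apply, Finset.sum_eq_single (Sum.inr i)]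
    · show (if (Sum.inr i : ι ⊕ κ) = Sum.inr i then (1 : A) else 0) * c (Sum.inr i) (Sum.inr j) *
        star (if (Sum.inr j : ι ⊕ κ) = Sum.inr j then (1 : A) else 0) = c (Sum.inr i) (Sum.inr j)
      simp
    · intro b _ hb
      show (if b = Sum.inr i then (1 : A) else 0) * _ = 0
      rw [if_neg hb, zero_mul]
    · simp
  · intro b _ hb
    show _ * star (if b = Sum.inr j then (1 : A) else 0) = 0
    rw [if_neg hb, star_zero, mul_zero]
  · simp

theorem blk0_nonneg {c : CStarMatrix (ι ⊕ κ) (ι ⊕ κ) A} (hc : 0 ≤ c) : 0 ≤ blk0 c := by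
  rw [← blk0_eq]
  exact cm_conj_nonneg _ hc

theorem blk1_nonneg {c : CStarMatrix (ι ⊕ κ) (ι ⊕ κ) A} (hc : 0 ≤ c) : 0 ≤ blk1 c := by
  rw [← blk1_eq]
  exact cm_conj_nonneg _ hc

theorem blk0_cu (c : CStarMatrix (ι ⊕ κ) (ι ⊕ κ) A) : Cu (blk0 c) c := by
  rw [← blk0_eq]
  exact cu_conj _ _

theorem blk1_cu (c : CStarMatrix (ι ⊕ κ) (ι ⊕ κ) A) : Cu (blk1 c) c := by
  rw [← blk1_eq]
  exact cu_conj _ _

/-- the symmetry -/
def sym (A : Type u) [CStarAlgebra A] (ι κ : Type) [DecidableEq ι] [DecidableEq κ] :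
    CStarMatrix (ι ⊕ κ) (ι ⊕ κ) A :=
  CStarMatrix.ofMatrix (Matrix.fromBlocks 1 0 0 (-1))

theorem sym_conj : (sym A ι κ).conjTranspose = sym A ι κ := by
  show Matrix.conjTranspose (Matrix.fromBlocks 1 0 0 (-1)) = Matrix.fromBlocks 1 0 0 (-1)
  rw [Matrix.fromBlocks_conjTranspose]
  simp

theorem sym_mat (c : Matrix (ι ⊕ κ) (ι ⊕ κ) A) :
    (Matrix.fromBlocks 1 0 0 (-1) : Matrix (ι ⊕ κ) (ι ⊕ κ) A) * c * Matrix.fromBlocks 1 0 0 (-1) =
      Matrix.fromBlocks (Matrix.of fun i j => c (Sum.inl i) (Sum.inl j))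
        (Matrix.of fun i j => - c (Sum.inl i) (Sum.inr j))
        (Matrix.of fun i j => - c (Sum.inr i) (Sum.inl j))
        (Matrix.of fun i j => c (Sum.inr i) (Sum.inr j)) := by
  have hc : c = Matrix.fromBlocks
        (Matrix.of fun i j => c (Sum.inl i) (Sum.inl j))
        (Matrix.of fun i j => c (Sum.inl i) (Sum.inr j))
        (Matrix.of fun i j => c (Sum.inr i) (Sum.inl j))
        (Matrix.of fun i j => c (Sum.inr i) (Sum.inr j)) := by
    ext i j
    rcases i with i | i <;> rcases j with j | j <;> rfl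
  conv_lhs => rw [hc]
  rw [Matrix.fromBlocks_multiply, Matrix.fromBlocks_multiply]
  simp only [Matrix.one_mul, Matrix.zero_mul, Matrix.mul_one, Matrix.mul_zero, add_zero,
    zero_add, Matrix.neg_mul, Matrix.mul_neg, neg_neg]
  rfl

theorem sym_add (c : CStarMatrix (ι ⊕ κ) (ι ⊕ κ) A) :
    c + sym A ι κ * c * (sym A ι κ).conjTranspose = (2 : ℝ) • dsum (blk0 c) (blk1 c) := by
  rw [sym_conj]
  have h1 : sym A ι κ * c * sym A ι κ = CStarMatrix.ofMatrix
      (Matrix.fromBlocks (Matrix.of fun i j => c (Sum.inl i) (Sum.inl j))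
        (Matrix.of fun i j => - c (Sum.inl i) (Sum.inr j))
        (Matrix.of fun i j => - c (Sum.inr i) (Sum.inl j))
        (Matrix.of fun i j => c (Sum.inr i) (Sum.inr j))) := sym_mat c
  rw [h1]
  ext i j
  rcases i with i | i <;> rcases j with j | j
  · show c (Sum.inl i) (Sum.inl j) + c (Sum.inl i) (Sum.inl j) =
      (2 : ℝ) • c (Sum.inl i) (Sum.inl j)
    rw [two_smul]
  · show c (Sum.inl i) (Sum.inr j) + - c (Sum.inl i) (Sum.inr j) = (2 : ℝ) • (0 : A)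
    simp
  · show c (Sum.inr i) (Sum.inl j) + - c (Sum.inr i) (Sum.inl j) = (2 : ℝ) • (0 : A)
    simp
  · show c (Sum.inr i) (Sum.inr j) + c (Sum.inr i) (Sum.inr j) =
      (2 : ℝ) • c (Sum.inr i) (Sum.inr j)
    rw [two_smul]

theorem le_two_blocks {c : CStarMatrix (ι ⊕ κ) (ι ⊕ κ) A} (hc : 0 ≤ c) :
    c ≤ (2 : ℝ) • dsum (blk0 c) (blk1 c) := by
  rw [← sym_add]
  exact le_add_of_nonneg_right (cm_conj_nonneg _ hc)

theorem dg_nonneg {f : A} (hf : 0 ≤ f) : 0 ≤ dg κ f := by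
  obtain ⟨s, hs⟩ := CStarAlgebra.nonneg_iff_eq_mul_star_self.mp hf
  have h0 : (Matrix.diagonal (fun _ : κ => f) : Matrix κ κ A) =
      Matrix.diagonal (fun _ : κ => s) * Matrix.conjTranspose (Matrix.diagonal (fun _ => s)) := by
    rw [Matrix.diagonal_conjTranspose, Matrix.diagonal_mul_diagonal, hs]
    rfl
  have : dg κ f = dg κ s * (dg κ s).conjTranspose := h0
  rw [this]
  exact cm_mul_conj_nonneg _

/-! ## Quasitraces -/

theorem dim_add_le (hAdd : CuAddP.{u}) (hMono : QMonoP.{u}) (hQD : QDsumP.{u}) (σ : QTrace A)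
    {x y : CStarMatrix ι ι A} (hx : 0 ≤ x) (hy : 0 ≤ y) :
    σ.dim (x + y) ≤ σ.dim x + σ.dim y := by
  have h := hAdd A ι x y 0 0 le_rfl le_rfl hx hy
  rw [add_zero, cut_zero (add_nonneg hx hy), cut_zero hx, cut_zero hy] at h
  obtain ⟨h0, h1⟩ := hQD A σ ι ι x y hx hy
  calc σ.dim (x + y) ≤ σ.dim (dsum x y) := hMono A σ ι (ι ⊕ ι) _ _ (add_nonneg hx hy) h0 h
    _ = _ := h1

theorem dim_zero (σ : QTrace A) : σ.dim (0 : CStarMatrix ι ι A) = 0 := by
  unfold QTrace.dim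
  have h : ∀ n : ℕ, σ.τ ι (cfc (fun t : ℝ => min 1 ((n : ℝ) * t)) (0 : CStarMatrix ι ι A)) = 0 := by
    intro n
    have h1 : cfc (fun t : ℝ => min 1 ((n : ℝ) * t)) (0 : CStarMatrix ι ι A) = 0 := by
      rw [cfc_apply_zero]
      simp
    rw [h1]
    exact σ.zero
  simp_rw [h]
  exact ciSup_const

theorem dim_sum_le (hAdd : CuAddP.{u}) (hMono : QMonoP.{u}) (hQD : QDsumP.{u}) (σ : QTrace A)
    {G : Type} (T : G → CStarMatrix ι ι A) (hT : ∀ g, 0 ≤ T g) (s : ℝ)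
    (hs : ∀ g, σ.dim (T g) ≤ s) (S : Finset G) : σ.dim (∑ g ∈ S, T g) ≤ S.card * s := by
  classical
  induction S using Finset.induction_on with
  | empty => simp [dim_zero]
  | insert g S hg ih =>
    rw [Finset.sum_insert hg, Finset.card_insert_of_notMem hg]
    have h := dim_add_le hAdd hMono hQD σ (hT g) (Finset.sum_nonneg fun g _ => hT g) (y := ∑ g ∈ S, T g)
    push_cast
    linarith [hs g]

theorem cu_phi (hLe : CuLeAddP.{u}) (hT : CuTransP.{u}) {δ : ℝ} (hδ : 0 < δ)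
    {c : CStarMatrix ι ι A} (hc : 0 ≤ c) : Cu (cfc (phi δ) c) c := by
  have h0 : 0 ≤ cfc (phi δ) c := cfc_nonneg fun t _ => phi_nonneg hδ t
  have h1 : Cu (cfc (phi δ) c) (δ⁻¹ • c) :=
    cu_of_le hLe h0 (h0.trans (phi_le_smul hδ hc)) (phi_le_smul hδ hc)
  exact hT A ι ι ι _ _ _ h1 (cu_smul (by positivity) c)

section hom
variable {B : Type u} [CStarAlgebra B] [PartialOrder B] [StarOrderedRing B]

theorem mp_mul (j : B →⋆ₐ[ℂ] A) (x : CStarMatrix ι κ B) (y : CStarMatrix κ μ B) :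
    mp j (x * y) = mp j x * mp j y := by
  ext i k
  show j ((x * y) i k) = (mp j x * mp j y) i k
  rw [CStarMatrix.mul_apply, CStarMatrix.mul_apply, map_sum]
  refine Finset.sum_congr rfl fun l _ => ?_
  rw [map_mul]
  rfl

theorem mp_dg (j : B →⋆ₐ[ℂ] A) (f : B) : mp j (dg κ f) = dg κ (j f) := by
  ext i k
  show j (Matrix.diagonal (fun _ => f) i k) = Matrix.diagonal (fun _ => j f) i k
  rcases eq_or_ne i k with h | h
  · rw [h, Matrix.diagonal_apply_eq, Matrix.diagonal_apply_eq]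
  · rw [Matrix.diagonal_apply_ne _ h, Matrix.diagonal_apply_ne _ h, map_zero]

end hom

end CutDown

open CutDown in
theorem cutDownP (hMp : MpP.{u}) (hPull : QPullP.{u}) (hLe : CuLeAddP.{u}) (hSwap : CuSwapP.{u})
    (hAdd : CuAddP.{u}) (hDs : CuDsumP.{u}) (hT : CuTransP.{u}) (hMono : QMonoP.{u})
    (hQD : QDsumP.{u}) : CutDownP.{u} := by
  intro A _ _ _ B _ _ _ G _ _ α j hα hj ι κ _ _ _ _ a b f J y c δ s ha hb hf hc hδ hin hdim
  classical
  set αh : G → (A →⋆ₐ[ℂ] A) := fun g => ((α g : A ≃⋆ₐ[ℂ] A) : A →⋆ₐ[ℂ] A) with hαh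
  have hαa : ∀ g x, αh g x = α g x := fun g x => rfl
  have hinj : ∀ g, Function.Injective (αh g) := fun g => (α g).injective
  set T : G → CStarMatrix (ι ⊕ Fin J) (ι ⊕ Fin J) A := fun g => mp (αh g) c with hTd
  have hT0 : ∀ g, 0 ≤ T g := fun g =>
    (hMp A A (αh g) (hinj g) (ι ⊕ Fin J) (ι ⊕ Fin J) c c).1.1 hc
  set ct : CStarMatrix (ι ⊕ Fin J) (ι ⊕ Fin J) A := ∑ g, T g with hct
  have hct0 : 0 ≤ ct := Finset.sum_nonneg fun g _ => hT0 g
  have hα1 : ∀ x, α 1 x = x := by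
    intro x
    have h := hα 1 1 x
    rw [mul_one] at h
    exact ((α 1).injective h).symm
  have hT1 : T 1 = c := by
    ext i k
    exact hα1 (c i k)
  have hcle : c ≤ ct := by
    conv_lhs => rw [← hT1]
    exact Finset.single_le_sum (fun g _ => hT0 g) (Finset.mem_univ 1)
  have hentry : ∀ i k, ct i k = ∑ g, α g (c i k) := by
    intro i k
    exact Matrix.sum_apply _ _ _ _
  have hinv : ∀ h i k, α h (ct i k) = ct i k := by
    intro h i k
    rw [hentry, map_sum]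
    have h2 : ∀ g, α h (α g (c i k)) = α (h * g) (c i k) := fun g => (hα h g _).symm
    simp_rw [h2]
    exact Fintype.sum_equiv (Equiv.mulLeft h) _ _ fun g => rfl
  have hex : ∀ i k, ∃ x, j x = ct i k := fun i k => (hj.2 _).1 fun g => hinv g i k
  choose C hC using hex
  set CC : CStarMatrix (ι ⊕ Fin J) (ι ⊕ Fin J) B := CStarMatrix.ofMatrix C with hCC
  have hmp : mp j CC = ct := by
    ext i k
    exact hC i k
  have hCC0 : 0 ≤ CC := by
    refine (hMp A B j hj.1 (ι ⊕ Fin J) (ι ⊕ Fin J) CC CC).1.2 ?_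
    rw [hmp]
    exact hct0
  have hdimct : ∀ σ : QTrace A, σ.dim ct ≤ Fintype.card G * s := by
    intro σ
    have h := dim_sum_le hAdd hMono hQD σ T hT0 s (fun g => by
      obtain ⟨σg, h⟩ := hPull A A (αh g) (hinj g) σ
      have h2 := h (ι ⊕ Fin J) c hc
      show σ.dim (mp (αh g) c) ≤ s
      rw [← h2]
      exact hdim σg) Finset.univ
    rwa [Finset.card_univ] at h
  have hc0 : 0 ≤ blk0 ct := blk0_nonneg hct0
  have hc1 : 0 ≤ blk1 ct := blk1_nonneg hct0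
  have hC0 : 0 ≤ blk0 CC := blk0_nonneg hCC0
  have hC1 : 0 ≤ blk1 CC := blk1_nonneg hCC0
  have hm0 : mp j (blk0 CC) = blk0 ct := by rw [← hmp]; rfl
  have hm1 : mp j (blk1 CC) = blk1 ct := by rw [← hmp]; rfl
  have he0 : mp j (cfc (phi δ) (blk0 CC)) = cfc (phi δ) (blk0 ct) := by
    rw [← hm0]
    exact (hMp A B j hj.1 ι ι (blk0 CC) (blk0 CC)).2.2.2 (phi δ) (phi_cont δ) hC0.isSelfAdjoint
  have he1 : mp j (cfc (phi δ) (blk1 CC)) = cfc (phi δ) (blk1 ct) := by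
    rw [← hm1]
    exact (hMp A B j hj.1 (Fin J) (Fin J) (blk1 CC) (blk1 CC)).2.2.2 (phi δ) (phi_cont δ)
      hC1.isSelfAdjoint
  have hr1 : mp j (cfc (psi δ) (blk1 CC)) = cfc (psi δ) (blk1 ct) := by
    rw [← hm1]
    exact (hMp A B j hj.1 (Fin J) (Fin J) (blk1 CC) (blk1 CC)).2.2.2 (psi δ) (psi_cont δ)
      hC1.isSelfAdjoint
  have hF0 : 0 ≤ dg (Fin J) f := dg_nonneg hf
  have hjF : mp j (dg (Fin J) f) = dg (Fin J) (j f) := mp_dg j f
  have hF1 : 0 ≤ dg (Fin J) (j f) := by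
    rw [← hjF]
    exact (hMp A B j hj.1 (Fin J) (Fin J) (dg (Fin J) f) (dg (Fin J) f)).1.1 hF0
  set r0 : CStarMatrix ι ι A := cfc (psi δ) (blk0 ct) with hr0d
  set r1 : CStarMatrix (Fin J) (Fin J) A := cfc (psi δ) (blk1 ct) with hr1d
  have hr0s : r0.conjTranspose = r0 := (psi_sa δ (blk0 ct)).star_eq
  have hr1s : r1.conjTranspose = r1 := (psi_sa δ (blk1 ct)).star_eq
  have hX0 : 0 ≤ r0 * a * r0 := by
    have h := cm_conj_nonneg r0 ha
    rwa [hr0s] at h
  have hY0 : 0 ≤ r1 * dg (Fin J) (j f) * r1 := by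
    have h := cm_conj_nonneg r1 hF1
    rwa [hr1s] at h
  have hR1s : (cfc (psi δ) (blk1 CC)).conjTranspose = cfc (psi δ) (blk1 CC) :=
    (psi_sa δ (blk1 CC)).star_eq
  have hYB0 : 0 ≤ cfc (psi δ) (blk1 CC) * dg (Fin J) f * cfc (psi δ) (blk1 CC) := by
    have h := cm_conj_nonneg (cfc (psi δ) (blk1 CC)) hF0
    rwa [hR1s] at h
  have hmd : mp j (cut (cfc (psi δ) (blk1 CC) * dg (Fin J) f * cfc (psi δ) (blk1 CC)) (2 * δ)) =
      cut (r1 * dg (Fin J) (j f) * r1) (2 * δ) := by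
    have h1 := (hMp A B j hj.1 (Fin J) (Fin J)
      (cfc (psi δ) (blk1 CC) * dg (Fin J) f * cfc (psi δ) (blk1 CC)) (blk1 CC)).2.2.2
      (fun t : ℝ => max (t - 2 * δ) 0) (by fun_prop) hYB0.isSelfAdjoint
    unfold cut
    rw [h1, mp_mul, mp_mul, hr1, hjF]
  -- the main inequality
  set K : CStarMatrix (ι ⊕ Fin J) (ι ⊕ Fin J) A := dsum r0 r1 with hK
  have hKs : K.conjTranspose = K := by rw [hK, dsum_conj, hr0s, hr1s]
  have hKK : K * K ≤ 1 := by
    rw [hK, dsum_mul, ← dsum_one]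
    exact dsum_mono (psi_psi_le hδ hc0) (psi_psi_le hδ hc1)
  have hKcK : K * dsum (blk0 ct) (blk1 ct) * K ≤ (δ / 4) • (1 : CStarMatrix _ _ A) := by
    rw [hK, dsum_mul, dsum_mul, ← dsum_one, ← dsum_rsmul]
    exact dsum_mono (psi_c_psi_le hδ hc0) (psi_c_psi_le hδ hc1)
  have hKD : K * dsum a (dg (Fin J) (j f)) * K =
      dsum (r0 * a * r0) (r1 * dg (Fin J) (j f) * r1) := by
    rw [hK, dsum_mul, dsum_mul]
  have hin2 : dsum a (dg (Fin J) (j f)) ≤ y.conjTranspose * b * y +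
      (2 : ℝ) • dsum (blk0 ct) (blk1 ct) + δ • (1 : CStarMatrix (ι ⊕ Fin J) (ι ⊕ Fin J) A) := by
    refine hin.trans ?_
    gcongr
    exact hcle.trans (le_two_blocks hct0)
  have hZ : K * (y.conjTranspose * b * y) * K = (y * K).conjTranspose * b * (y * K) := by
    rw [cm_conj_mul, hKs]
    simp only [cm_assoc]
  have hmain : dsum (r0 * a * r0) (r1 * dg (Fin J) (j f) * r1) ≤
      (y * K).conjTranspose * b * (y * K) +
        (2 * δ) • (1 : CStarMatrix (ι ⊕ Fin J) (ι ⊕ Fin J) A) := by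
    have h := cm_conj_le K hin2
    rw [hKs, hKD] at h
    refine h.trans ?_
    have h2 : K * (y.conjTranspose * b * y + (2 : ℝ) • dsum (blk0 ct) (blk1 ct) +
        δ • (1 : CStarMatrix (ι ⊕ Fin J) (ι ⊕ Fin J) A)) * K =
        (y * K).conjTranspose * b * (y * K) + (2 : ℝ) • (K * dsum (blk0 ct) (blk1 ct) * K) +
          δ • (K * K) := by
      rw [← hZ, mul_add, mul_add, add_mul, add_mul, cm_mul_rsmul, cm_mul_rsmul, cm_rsmul_mul,
        cm_rsmul_mul, mul_one]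
    rw [h2]
    have h3 : (2 : ℝ) • (K * dsum (blk0 ct) (blk1 ct) * K) ≤
        (2 : ℝ) • ((δ / 4) • (1 : CStarMatrix (ι ⊕ Fin J) (ι ⊕ Fin J) A)) :=
      smul_le_smul_of_nonneg_left hKcK (by norm_num)
    have h4 : δ • (K * K) ≤ δ • (1 : CStarMatrix (ι ⊕ Fin J) (ι ⊕ Fin J) A) :=
      smul_le_smul_of_nonneg_left hKK hδ.le
    have h5 : (2 : ℝ) • ((δ / 4) • (1 : CStarMatrix (ι ⊕ Fin J) (ι ⊕ Fin J) A)) +
        δ • (1 : CStarMatrix (ι ⊕ Fin J) (ι ⊕ Fin J) A) ≤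
        (2 * δ) • (1 : CStarMatrix (ι ⊕ Fin J) (ι ⊕ Fin J) A) := by
      rw [smul_smul, ← add_smul]
      exact smul_le_smul_of_nonneg_right (by linarith) zero_le_one
    rw [add_assoc]
    refine add_le_add le_rfl ?_
    exact (add_le_add h3 h4).trans h5
  refine ⟨cut (r0 * a * r0) (2 * δ), cfc (phi δ) (blk0 CC), cfc (phi δ) (blk1 CC),
    cut (cfc (psi δ) (blk1 CC) * dg (Fin J) f * cfc (psi δ) (blk1 CC)) (2 * δ),
    cut_nonneg _ _, cfc_nonneg fun t _ => phi_nonneg hδ t, cfc_nonneg fun t _ => phi_nonneg hδ t,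
    cut_nonneg _ _, ?_, ?_, ?_, ?_, ?_⟩
  · rw [he0]
    exact split hSwap hAdd hLe hDs hT ha hc0 hδ
  · rw [hmd, ← cut_dsum _ _ hX0.isSelfAdjoint hY0.isSelfAdjoint]
    have h1 := hLe A (ι ⊕ Fin J) (dsum (r0 * a * r0) (r1 * dg (Fin J) (j f) * r1))
      ((y * K).conjTranspose * b * (y * K)) (2 * δ) (by positivity) (dsum_nonneg hX0 hY0)
      (cm_conj_nonneg' _ hb) hmain
    exact hT A (ι ⊕ Fin J) (ι ⊕ Fin J) κ _ _ _ h1 (cu_conj' _ _)
  · exact split hSwap hAdd hLe hDs hT hF0 hC1 hδ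
  · intro σ
    rw [he0]
    refine le_trans (hMono A σ ι (ι ⊕ Fin J) _ _ (cfc_nonneg fun t _ => phi_nonneg hδ t) hct0 ?_)
      (hdimct σ)
    exact hT A ι ι (ι ⊕ Fin J) _ _ _ (cu_phi hLe hT hδ hc0) (blk0_cu ct)
  · intro σ
    rw [he1]
    refine le_trans (hMono A σ (Fin J) (ι ⊕ Fin J) _ _ (cfc_nonneg fun t _ => phi_nonneg hδ t)
      hct0 ?_) (hdimct σ)
    exact hT A (Fin J) (Fin J) (ι ⊕ Fin J) _ _ _ (cu_phi hLe hT hδ hc1) (blk1_cu ct)

end RC
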