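import Pool.Agent.Helper70.RC.Goals

/-!
# Packet TW-HSIG: the Hermite form of a separable polynomial over a real closed field
-/

namespace Pool.Agent.Helper32.RC.HS

open Polynomial Pool.Agent.Helper70.RC

universe u

section basic

variable {k : Type u} [Field k] [LinearOrder k] [IsStrictOrderedRing k]
variable {L : Type u} [Field L] [Algebra k L] {J : L}

theorem uniq0 (hJ : J ^ 2 = -1) {a b : k}
    (h : algebraMap k L a + algebraMap k L b * J = 0) : a = 0 ∧ b = 0 := by
  have h1 : algebraMap k L (a ^ 2 + b ^ 2) = 0 := by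
    have h2 : algebraMap k L (a ^ 2 + b ^ 2) =
        (algebraMap k L a + algebraMap k L b * J) * (algebraMap k L a - algebraMap k L b * J) := by
      rw [map_add, map_pow, map_pow]
      linear_combination ((algebraMap k L b) ^ 2) * hJ
    rw [h2, h, zero_mul]
  have h3 : a ^ 2 + b ^ 2 = 0 := by
    rwa [map_eq_zero] at h1
  have ha : a ^ 2 = 0 := by nlinarith [sq_nonneg a, sq_nonneg b]
  have hb : b ^ 2 = 0 := by nlinarith [sq_nonneg a, sq_nonneg b]
  exact ⟨by simpa using ha, by simpa using hb⟩

theorem uniq (hJ : J ^ 2 = -1) {a b c d : k}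
    (h : algebraMap k L a + algebraMap k L b * J = algebraMap k L c + algebraMap k L d * J) :
    a = c ∧ b = d := by
  have h1 : algebraMap k L (a - c) + algebraMap k L (b - d) * J = 0 := by
    rw [map_sub, map_sub]
    linear_combination h
  obtain ⟨h2, h3⟩ := uniq0 hJ h1
  exact ⟨sub_eq_zero.mp h2, sub_eq_zero.mp h3⟩

/-- Powers of conjugate elements. -/
theorem pow_conj (hJ : J ^ 2 = -1) (a b : k) (j : ℕ) : ∃ c d : k,
    (algebraMap k L a + algebraMap k L b * J) ^ j = algebraMap k L c + algebraMap k L d * J ∧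
    (algebraMap k L a - algebraMap k L b * J) ^ j = algebraMap k L c - algebraMap k L d * J := by
  induction j with
  | zero => exact ⟨1, 0, by simp, by simp⟩
  | succ j ih =>
    obtain ⟨c, d, h1, h2⟩ := ih
    refine ⟨c * a - d * b, c * b + d * a, ?_, ?_⟩
    · rw [pow_succ, h1]
      simp only [map_sub, map_mul, map_add]
      linear_combination (algebraMap k L d * algebraMap k L b) * hJ
    · rw [pow_succ, h2]
      simp only [map_sub, map_mul, map_add]
      linear_combination (algebraMap k L d * algebraMap k L b) * hJ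

/-- Values of a polynomial at conjugate elements. -/
theorem aeval_conj (hJ : J ^ 2 = -1) (a b : k) (f : k[X]) : ∃ c d : k,
    aeval (algebraMap k L a + algebraMap k L b * J) f =
      algebraMap k L c + algebraMap k L d * J ∧
    aeval (algebraMap k L a - algebraMap k L b * J) f =
      algebraMap k L c - algebraMap k L d * J := by
  induction f using Polynomial.induction_on' with
  | add p q hp hq =>
    obtain ⟨c, d, h1, h2⟩ := hp
    obtain ⟨c', d', h3, h4⟩ := hq
    refine ⟨c + c', d + d', ?_, ?_⟩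
    · rw [map_add, h1, h3, map_add, map_add]; ring
    · rw [map_add, h2, h4, map_add, map_add]; ring
  | monomial m x =>
    obtain ⟨c, d, h1, h2⟩ := pow_conj hJ a b m
    refine ⟨x * c, x * d, ?_, ?_⟩
    · rw [aeval_monomial, h1, map_mul, map_mul]; ring
    · rw [aeval_monomial, h2, map_mul, map_mul]; ring

theorem root_conj (hJ : J ^ 2 = -1) (a b : k) (f : k[X])
    (h : aeval (algebraMap k L a + algebraMap k L b * J) f = 0) :
    aeval (algebraMap k L a - algebraMap k L b * J) f = 0 := by
  obtain ⟨c, d, h1, h2⟩ := aeval_conj hJ a b f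
  rw [h] at h1
  obtain ⟨h3, h4⟩ := uniq0 hJ h1.symm
  rw [h2, h3, h4]
  simp

end basic

theorem HSIG (hH : Pool.Agent.Helper70.RC.HTR.{u, u}) : Pool.Agent.Helper70.RC.HSIG.{u} := by
  classical
  intro k _ _ n f hmon hdeg hsep
  obtain ⟨_, _⟩ := exists_order k
  let L := AlgebraicClosure k
  obtain ⟨J, hJ⟩ : ∃ J : L, J ^ 2 = -1 :=
    IsAlgClosed.exists_pow_nat_eq (-1 : L) (by norm_num)
  have hab : ∀ x : L, ∃ p : k × k, x = algebraMap k L p.1 + algebraMap k L p.2 * J := by
    intro x
    obtain ⟨a, b, h⟩ := Pool.Agent.Helper51.Lang.FTA.exists_ab (R := k) (A := L) hJ x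
    exact ⟨(a, b), h⟩
  choose g hg using hab
  -- conjugation
  let re : L → k := fun x => (g x).1
  let im : L → k := fun x => (g x).2
  have hri : ∀ x, x = algebraMap k L (re x) + algebraMap k L (im x) * J := hg
  let cj : L → L := fun x => algebraMap k L (re x) - algebraMap k L (im x) * J
  have hcj : ∀ x, re (cj x) = re x ∧ im (cj x) = - im x := by
    intro x
    apply uniq hJ
    rw [← hri (cj x), map_neg]
    change algebraMap k L (re x) - algebraMap k L (im x) * J = _
    ring
  have hcc : ∀ x, cj (cj x) = x := by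
    intro x
    change algebraMap k L (re (cj x)) - algebraMap k L (im (cj x)) * J = x
    rw [(hcj x).1, (hcj x).2, map_neg]
    conv_rhs => rw [hri x]
    ring
  -- the roots
  let Z : Finset L := (f.aroots L).toFinset
  have hf0 : f ≠ 0 := hmon.ne_zero
  have hZ : ∀ x, x ∈ Z ↔ aeval x f = 0 := by
    intro x
    rw [Multiset.mem_toFinset, mem_aroots]
    exact ⟨fun h => h.2, fun h => ⟨hf0, h⟩⟩
  have hZc : Z.card = n := by
    have h1 : Fintype.card (f.rootSet L) = f.natDegree :=
      card_rootSet_eq_natDegree hsep (IsAlgClosed.splits _)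
    rw [← hdeg, ← h1]
    rw [Fintype.card_of_finset' Z]
    intro x
    rw [hZ, mem_rootSet]
    exact ⟨fun h => ⟨hf0, h⟩, fun h => h.2⟩
  have hZcj : ∀ x ∈ Z, cj x ∈ Z := by
    intro x hx
    rw [hZ] at hx ⊢
    apply root_conj hJ
    rw [← hri x]; exact hx
  let T0 : Finset L := Z.filter (fun x => im x = 0)
  let Tp : Finset L := Z.filter (fun x => 0 < im x)
  let Tm : Finset L := Z.filter (fun x => im x < 0)
  have hTpm : ∀ {M : Type u} [AddCommMonoid M] (G : L → M), ∑ x ∈ Tm, G x = ∑ x ∈ Tp, G (cj x) := by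
    intro M _ G
    refine Finset.sum_nbij' (fun x => cj x) (fun x => cj x) ?_ ?_ ?_ ?_ ?_
    · intro x hx
      rw [Finset.mem_filter] at hx ⊢
      refine ⟨hZcj x hx.1, ?_⟩
      rw [(hcj x).2]; linarith [hx.2]
    · intro x hx
      rw [Finset.mem_filter] at hx ⊢
      refine ⟨hZcj x hx.1, ?_⟩
      rw [(hcj x).2]; linarith [hx.2]
    · intro x _; exact hcc x
    · intro x _; exact hcc x
    · intro x _; rw [hcc x]
  have hsum : ∀ {M : Type u} [AddCommMonoid M] (G : L → M),
      ∑ x ∈ Z, G x = ∑ x ∈ T0, G x + (∑ x ∈ Tp, G x + ∑ x ∈ Tp, G (cj x)) := by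
    intro M _ G
    rw [← hTpm G]
    rw [← Finset.sum_filter_add_sum_filter_not Z (fun x => im x = 0)]
    congr 1
    rw [← Finset.sum_filter_add_sum_filter_not (Z.filter (fun x => ¬ im x = 0)) (fun x => 0 < im x)]
    congr 1
    · apply Finset.sum_congr _ (fun _ _ => rfl)
      ext x
      simp only [Finset.mem_filter, Tp]
      constructor
      · rintro ⟨⟨h1, _⟩, h3⟩; exact ⟨h1, h3⟩
      · rintro ⟨h1, h3⟩; exact ⟨⟨h1, ne_of_gt h3⟩, h3⟩
    · apply Finset.sum_congr _ (fun _ _ => rfl)
      ext x
      simp only [Finset.mem_filter, Tm]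
      constructor
      · rintro ⟨⟨h1, h2⟩, h3⟩; exact ⟨h1, lt_of_le_of_ne (not_lt.mp h3) h2⟩
      · rintro ⟨h1, h3⟩; exact ⟨⟨h1, ne_of_lt h3⟩, not_lt.mpr h3.le⟩
  -- the enumerations
  let e0 : Fin T0.card ≃ T0 := T0.equivFin.symm
  let ep : Fin Tp.card ≃ Tp := Tp.equivFin.symm
  have hcard : T0.card + 2 * Tp.card = n := by
    have h1 := hsum (M := ULift.{u} ℕ) (fun _ => ULift.up 1)
    have h2 : ∀ S : Finset L, ((∑ _x ∈ S, ULift.up 1 : ULift.{u} ℕ)).down = S.card := by
      intro S
      induction S using Finset.induction_on with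
      | empty => rfl
      | insert a S ha ih =>
        rw [Finset.sum_insert ha, Finset.card_insert_of_notMem ha, ← ih, ULift.add_down, add_comm]
    have h3 := congrArg ULift.down h1
    rw [ULift.add_down, ULift.add_down, h2, h2, h2, hZc] at h3
    omega
  choose c d hc hd using fun (x : L) (j : ℕ) => pow_conj (L := L) hJ (re x) (im x) j
  have hc' : ∀ (x : L) (j : ℕ), x ^ j = algebraMap k L (c x j) + algebraMap k L (d x j) * J := by
    intro x j
    rw [← hc x j, ← hri x]
  have hd' : ∀ (x : L) (j : ℕ), (cj x) ^ j = algebraMap k L (c x j) - algebraMap k L (d x j) * J :=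
    fun x j => hd x j
  let A : (Fin n → k) →ₗ[k] (Fin T0.card → k) :=
    (Matrix.of fun (i : Fin T0.card) (j : Fin n) => (re (e0 i : L)) ^ (j : ℕ)).mulVecLin
  let B : (Fin n → k) →ₗ[k] (Fin Tp.card → k) :=
    (Matrix.of fun (i : Fin Tp.card) (j : Fin n) => c (ep i : L) j).mulVecLin
  let C : (Fin n → k) →ₗ[k] (Fin Tp.card → k) :=
    (Matrix.of fun (i : Fin Tp.card) (j : Fin n) => d (ep i : L) j).mulVecLin
  have hA : ∀ u i, A u i = ∑ j : Fin n, (re (e0 i : L)) ^ (j : ℕ) * u j := fun u i => rfl
  have hB : ∀ u i, B u i = ∑ j : Fin n, c (ep i : L) j * u j := fun u i => rfl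
  have hC : ∀ u i, C u i = ∑ j : Fin n, d (ep i : L) j * u j := fun u i => rfl
  let U : (Fin n → k) → L → L := fun u x => ∑ j : Fin n, algebraMap k L (u j) * x ^ (j : ℕ)
  have hU0 : ∀ u (i : Fin T0.card), U u (e0 i : L) = algebraMap k L (A u i) := by
    intro u i
    have h0 : im (e0 i : L) = 0 := by
      have := (e0 i).2
      rw [Finset.mem_filter] at this
      exact this.2
    have hx : (e0 i : L) = algebraMap k L (re (e0 i : L)) := by
      conv_lhs => rw [hri (e0 i : L)]
      rw [h0]; simp
    rw [hA, map_sum]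
    apply Finset.sum_congr rfl
    intro j _
    rw [map_mul, map_pow, ← hx, mul_comm]
  have hUp : ∀ u (i : Fin Tp.card), U u (ep i : L) =
      algebraMap k L (B u i) + algebraMap k L (C u i) * J := by
    intro u i
    rw [hB, hC, map_sum, map_sum, Finset.sum_mul, ← Finset.sum_add_distrib]
    apply Finset.sum_congr rfl
    intro j _
    rw [hc' (ep i : L) j, map_mul, map_mul]; ring
  have hUm : ∀ u (i : Fin Tp.card), U u (cj (ep i : L)) =
      algebraMap k L (B u i) - algebraMap k L (C u i) * J := by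
    intro u i
    rw [hB, hC, map_sum, map_sum, Finset.sum_mul, ← Finset.sum_sub_distrib]
    apply Finset.sum_congr rfl
    intro j _
    rw [hd' (ep i : L) j, map_mul, map_mul]; ring
  let eZ : Fin n ≃ Z := (Z.equivFinOfCardEq hZc).symm
  let ξ : Fin n → L := fun i => (eZ i : L)
  have hξ : Function.Injective ξ := fun i j h => eZ.injective (Subtype.ext h)
  have hξZ : ∀ i, ξ i ∈ Z := fun i => (eZ i).2
  refine ⟨T0.card, Tp.card, A, B, C, hcard, ?_, ?_, ?_⟩
  · rw [Finset.card_pos]
    constructor
    · rintro ⟨x, hx⟩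
      refine ⟨algebraMap k L x, ?_⟩
      rw [Finset.mem_filter, hZ]
      refine ⟨?_, ?_⟩
      · rw [aeval_algebraMap_apply]
        have : aeval x f = 0 := by simpa [IsRoot, aeval_def] using hx
        rw [this, map_zero]
      · have h1 : algebraMap k L (re (algebraMap k L x)) +
            algebraMap k L (im (algebraMap k L x)) * J =
            algebraMap k L x + algebraMap k L 0 * J := by
          rw [← hri]; simp
        exact (uniq hJ h1).2
    · rintro ⟨x, hx⟩
      rw [Finset.mem_filter, hZ] at hx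
      refine ⟨re x, ?_⟩
      have h1 : x = algebraMap k L (re x) := by
        conv_lhs => rw [hri x]
        rw [hx.2]; simp
      have h2 := hx.1
      rw [h1, aeval_algebraMap_apply, map_eq_zero] at h2
      simpa [IsRoot, aeval_def] using h2
  · intro u hAu hBu hCu
    have hall : ∀ x ∈ Z, U u x = 0 := by
      intro x hx
      rcases lt_trichotomy (im x) 0 with h | h | h
      · have hm : cj x ∈ Tp := by
          rw [Finset.mem_filter]
          refine ⟨hZcj x hx, ?_⟩
          rw [(hcj x).2]; linarith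
        obtain ⟨i, hi⟩ := ep.surjective ⟨cj x, hm⟩
        have hi' : cj (ep i : L) = x := by rw [hi]; exact hcc x
        have h1 := hUm u i
        rw [hi', hBu, hCu] at h1
        simpa using h1
      · have hm : x ∈ T0 := by
          rw [Finset.mem_filter]
          exact ⟨hx, h⟩
        obtain ⟨i, hi⟩ := e0.surjective ⟨x, hm⟩
        have h1 := hU0 u i
        rw [hi, hAu] at h1
        simpa using h1
      · have hm : x ∈ Tp := by
          rw [Finset.mem_filter]
          exact ⟨hx, h⟩
        obtain ⟨i, hi⟩ := ep.surjective ⟨x, hm⟩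
        have h1 := hUp u i
        rw [hi, hBu, hCu] at h1
        simpa using h1
    have h1 : (fun j => algebraMap k L (u j)) = 0 := by
      apply Matrix.eq_zero_of_forall_index_sum_pow_mul_eq_zero hξ
      intro i
      have h2 := hall (ξ i) (hξZ i)
      rw [← h2]
      apply Finset.sum_congr rfl
      intro j _
      rw [mul_comm]
    funext j
    have h2 := congrFun h1 j
    simpa using h2
  · intro u
    apply (algebraMap k L).injective
    rw [hH k L n f hmon hdeg ξ hξ (fun i => (hZ _).mp (hξZ i)) u]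
    have h1 : ∑ i, (∑ j, algebraMap k L (u j) * ξ i ^ (j : ℕ)) ^ 2 = ∑ x ∈ Z, (U u x) ^ 2 := by
      rw [← Finset.sum_coe_sort Z (fun x => (U u x) ^ 2)]
      exact Equiv.sum_comp eZ (fun x : Z => (U u (x : L)) ^ 2)
    rw [h1, hsum (fun x => (U u x) ^ 2), ← Finset.sum_add_distrib]
    rw [map_add, map_sum, map_mul, map_sum, Finset.mul_sum]
    congr 1
    · rw [← Finset.sum_coe_sort T0 (fun x => (U u x) ^ 2),
        ← Equiv.sum_comp e0 (fun x : T0 => (U u (x : L)) ^ 2)]
      apply Finset.sum_congr rfl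
      intro i _
      rw [hU0, map_pow]
    · rw [← Finset.sum_coe_sort Tp (fun x => (U u x) ^ 2 + (U u (cj x)) ^ 2),
        ← Equiv.sum_comp ep (fun x : Tp => (U u (x : L)) ^ 2 + (U u (cj (x : L))) ^ 2)]
      apply Finset.sum_congr rfl
      intro i _
      rw [hUp, hUm, map_sub, map_pow, map_pow]
      have h2 : (algebraMap k L) 2 = 2 := map_ofNat _ 2
      rw [h2]
      linear_combination (2 * (algebraMap k L (C u i)) ^ 2) * hJ

end Pool.Agent.Helper32.RC.HS
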